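import Pool.Agent.T6.H66.PS.Rates

/-!
# MP_0a0487_an: Anosov diffeomorphisms with (coarsely) pinched spectrum: universal covers
-/

set_option autoImplicit false

open scoped Manifold ContDiff Topology
open Set Filter

namespace Pool.Agent.Results.MP_0a0487_an.CoarsePinching

open Pool.Agent.H721R2 Pool.Agent.H789R2.AN

/-- `x` and `y` are joined by `n` consecutive `R`-steps. -/
def Joined {M : Type*} (R : M → M → Prop) (n : ℕ) (x y : M) : Prop :=
  ∃ c : ℕ → M, c 0 = x ∧ c n = y ∧ ∀ i < n, R (c i) (c (i + 1))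

/-- `(x, y)` is a stable step of `f` of size `𝒰`: the points `fⁱ x` and `fⁱ y` are `𝒰`-close for all
`i ≥ 0`.  (If `f` is Anosov and `𝒰` is a small neighbourhood of the diagonal, then `y` lies in the
local stable manifold of `x`.  The stable steps of `f.symm` are the unstable steps of `f`.) -/
def Step {M : Type*} (f : M → M) (𝒰 : Set (M × M)) (x y : M) : Prop :=
  ∀ i : ℕ, (f^[i] x, f^[i] y) ∈ 𝒰

/-- `f` is coarsely pinched at the scale `𝒰`: for every factor `K` there are times `k`, `l` and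
numbers `R`, `S` such that

* `f⁻ᵏ` turns every stable step into a chain of `R` stable steps, while `fᵏ⁺ˡ` turns every chain of
  `K * R` stable steps into a single stable step;
* `fˡ` turns every unstable step into a chain of `S` unstable steps, while `f⁻⁽ᵏ⁺ˡ⁾` turns every
  chain of `K * S` unstable steps into a single unstable step. -/
def CoarselyPinchedAt {M : Type*} [TopologicalSpace M] (f : M ≃ₜ M) (𝒰 : Set (M × M)) : Prop :=
  ∀ K : ℕ, ∃ k l R S : ℕ,
    (∀ x y, Step f 𝒰 x y → Joined (Step f 𝒰) R (f.symm^[k] x) (f.symm^[k] y)) ∧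
    (∀ x y, Joined (Step f 𝒰) (K * R) x y → Step f 𝒰 (f^[k + l] x) (f^[k + l] y)) ∧
    (∀ x y, Step f.symm 𝒰 x y → Joined (Step f.symm 𝒰) S (f^[l] x) (f^[l] y)) ∧
    (∀ x y, Joined (Step f.symm 𝒰) (K * S) x y →
      Step f.symm 𝒰 (f.symm^[k + l] x) (f.symm^[k + l] y))

/-- `f` is coarsely pinched: it is coarsely pinched at arbitrarily small scales. -/
def CoarselyPinched {M : Type*} [TopologicalSpace M] (f : M ≃ₜ M) : Prop :=
  ∀ 𝒱 ∈ 𝓝ˢ (diagonal M), ∃ 𝒰 ∈ 𝓝ˢ (diagonal M), 𝒰 ⊆ 𝒱 ∧ CoarselyPinchedAt f 𝒰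

/-- **Anosov diffeomorphisms with pinched spectrum, or coarsely pinched: universal covers.**
Let `f` be a `C¹` Anosov diffeomorphism of a closed connected manifold `M` modelled on the
finite-dimensional space `E`, with splitting `TM = Es ⊕ Eu`.  Suppose that

(A) for some continuous norm on `TM` and constants `C > 0`, `0 < μ₁ ≤ μ₂ < 1 < l₁ ≤ l₂` one has, for
all `n ≥ 0`, `C⁻¹ μ₁ⁿ ‖v‖ ≤ ‖Dfⁿ v‖ ≤ C μ₂ⁿ ‖v‖` on `Es` and `C⁻¹ l₁ⁿ ‖v‖ ≤ ‖Dfⁿ v‖ ≤ C l₂ⁿ ‖v‖` on
`Eu` (`AnosovRates`), and `log l₁ / log l₂ + log μ₂ / log μ₁ > 1`; or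

(B) `f` is coarsely pinched (a condition on the numbers of small steps in the stable and unstable
leaves only, invariant under topological conjugacy).

Then there is a surjective covering map `E → M`, where `E ≅ ℝⁿ`, `n = dim M`. -/
theorem result (E : Type*) [NormedAddCommGroup E] [NormedSpace ℝ E] [FiniteDimensional ℝ E]
    (M : Type*) [TopologicalSpace M] [T2Space M] [CompactSpace M] [ConnectedSpace M]
    [ChartedSpace E M] [IsManifold 𝓘(ℝ, E) ∞ M] (f : Diffeomorph 𝓘(ℝ, E) 𝓘(ℝ, E) M M 1)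
    (Es Eu : ∀ x : M, Submodule ℝ (TangentSpace 𝓘(ℝ, E) x)) (hA : IsAnosov f Es Eu)
    (h : (∃ (N : TangentBundle 𝓘(ℝ, E) M → ℝ) (C μ₁ μ₂ l₁ l₂ : ℝ), IsTangentNorm N ∧
        AnosovRates f N Es Eu C μ₁ μ₂ l₁ l₂ ∧
        1 < Real.log l₁ / Real.log l₂ + Real.log μ₂ / Real.log μ₁) ∨
      CoarselyPinched f.toHomeomorph) :
    ∃ π : E → M, IsCoveringMap π ∧ Function.Surjective π := by
  rcases h with ⟨N, C, μ₁, μ₂, l₁, l₂, hN, hf, hp⟩ | h
  · exact Pool.Agent.T6.H66.PS.man_rates f N hN Es Eu C μ₁ μ₂ l₁ l₂ hf hp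
  · exact Pool.Agent.T6.H66.PS.man_pin f Es Eu hA h

end Pool.Agent.Results.MP_0a0487_an.CoarsePinching
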