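import Pool.Agent.T6.H46.DL.Main

/-!
# MP_0a0487_an: Anosov diffeomorphisms that are hyperbolic at large scale: universal covers
-/

set_option autoImplicit false

open scoped Manifold ContDiff Topology
open Set Filter

namespace Pool.Agent.Results.MP_0a0487_an.LargeScaleHyperbolic

open Pool.Agent.H721R2 Pool.Agent.H789R2.AN

/-- `HomLen 𝒱 n p`: the path `p` is homotopic, with fixed end points, to a product of `n` paths that
are `𝒱`-small (a path `q` is `𝒱`-small if `(q s, q t) ∈ 𝒱` for all `s`, `t`). -/
inductive HomLen {M : Type*} [TopologicalSpace M] (𝒱 : Set (M × M)) :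
    ℕ → ∀ {x y : M}, Path x y → Prop
  | refl (x : M) : HomLen 𝒱 0 (Path.refl x)
  | trans {n : ℕ} {x y z : M} (p : Path x y) (q : Path y z) :
      (∀ s t, (p s, p t) ∈ 𝒱) → HomLen 𝒱 n q → HomLen 𝒱 (n + 1) (p.trans q)
  | homotopic {n : ℕ} {x y : M} (p q : Path x y) :
      p.Homotopic q → HomLen 𝒱 n p → HomLen 𝒱 n q

/-- The homotopy length of the path `c : [0,1] → M` at the scale `𝒱`: the least `n` such that `c` is
homotopic, with fixed end points, to a product of `n` paths that are `𝒱`-small.  (If `M` is a closed
manifold and `𝒱` is small, this is comparable to the distance of the end points of a lift of `c` to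
the universal cover of `M`.) -/
noncomputable def hlen {M : Type*} [TopologicalSpace M] (𝒱 : Set (M × M))
    (c : C(unitInterval, M)) : ℕ :=
  sInf {n | HomLen 𝒱 n (⟨c, rfl, rfl⟩ : Path (c 0) (c 1))}

/-- The path `fᵏ ∘ c`. -/
def img {M : Type*} [TopologicalSpace M] (f : M ≃ₜ M) (k : ℕ) (c : C(unitInterval, M)) :
    C(unitInterval, M) :=
  ⟨fun t => f^[k] (c t), (f.continuous.iterate k).comp c.continuous⟩

/-- `c` is a path in a stable leaf of `f`: the iterates `fᵏ ∘ c`, `k → ∞`, shrink to points.  The
paths in the unstable leaves of `f` are those in the stable leaves of `f.symm`. -/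
def StablePath {M : Type*} [TopologicalSpace M] (f : M ≃ₜ M) (c : C(unitInterval, M)) : Prop :=
  ∀ 𝒰 ∈ 𝓝ˢ (diagonal M), ∀ᶠ k in atTop, ∀ s t, (f^[k] (c s), f^[k] (c t)) ∈ 𝒰

/-- The homotopy lengths of unstable paths grow faster than those of stable paths, up to bounded
errors: for some iterate `f^N` the first ones are multiplied by at least `2ν`, the second ones by at
most `ν`. -/
def Dominated {M : Type*} [TopologicalSpace M] (f : M ≃ₜ M) (𝒱 : Set (M × M)) : Prop :=
  ∃ (N : ℕ) (ν C : ℝ), 0 < ν ∧
    (∀ c, StablePath f c → (hlen 𝒱 (img f N c) : ℝ) ≤ ν * hlen 𝒱 c + C) ∧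
    ∀ c, StablePath f.symm c → 2 * ν * hlen 𝒱 c ≤ hlen 𝒱 (img f N c) + C

/-- The lifts of the stable leaves to the universal cover are uniformly properly embedded: the stable
paths of bounded homotopy length are contracted in a bounded time. -/
def ProperlyEmbedded {M : Type*} [TopologicalSpace M] (f : M ≃ₜ M) (𝒱 : Set (M × M)) : Prop :=
  ∀ K : ℕ, ∀ 𝒰 ∈ 𝓝ˢ (diagonal M), ∃ m : ℕ, ∀ c, StablePath f c → hlen 𝒱 c ≤ K →
    ∀ k ≥ m, (f^[k] (c 0), f^[k] (c 1)) ∈ 𝒰

/-- `f` acts hyperbolically on the fundamental group of `M`: for some `N ≥ 1`, every loop of large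
homotopy length becomes at least twice as long, up to homotopy with fixed base point, under `f^N` or
under `f^(-N)`.  (For infranilmanifolds this means that `f_*` is a hyperbolic automorphism; for
arbitrary groups it is the notion of hyperbolic automorphism of Bestvina and Feighn.) -/
def HyperbolicOnPi1 {M : Type*} [TopologicalSpace M] (f : M ≃ₜ M) (𝒱 : Set (M × M)) : Prop :=
  ∃ N R : ℕ, 1 ≤ N ∧ ∀ c : C(unitInterval, M), c 0 = c 1 → R ≤ hlen 𝒱 c →
    2 * hlen 𝒱 c ≤ max (hlen 𝒱 (img f N c)) (hlen 𝒱 (img f.symm N c))

/-- If `c` is a path in a stable leaf and `c 0 ≠ c 1`, then the homotopy lengths of `f⁻ᵏ ∘ c`,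
`k ≥ 0`, are unbounded; that is, different points of the same stable leaf in the universal cover have
orbits at unbounded distance. -/
def LeafwiseUnbounded {M : Type*} [TopologicalSpace M] (f : M ≃ₜ M) (𝒱 : Set (M × M)) : Prop :=
  ∀ c, StablePath f c → c 0 ≠ c 1 → ∀ K : ℕ, ∃ k : ℕ, K < hlen 𝒱 (img f.symm k c)

/-- Every lift of every iterate `fⁿ`, `n ≥ 1`, to the universal cover of `M` has at most one fixed
point: if `c` is a path such that `fⁿ ∘ c` is homotopic to `c` with fixed end points (so that the end
points of `c` are Nielsen equivalent fixed points of `fⁿ`), then `c` is homotopic to a constant path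
with fixed end points. -/
def UniqueLiftedFixedPoints {M : Type*} [TopologicalSpace M] (f : M ≃ₜ M) : Prop :=
  ∀ n : ℕ, 1 ≤ n → ∀ c : C(unitInterval, M), (img f n c).HomotopicRel c {0, 1} →
    c.HomotopicRel (ContinuousMap.const unitInterval (c 0)) {0, 1}

/-- In the universal cover a stable leaf and an unstable leaf have at most one common point: if a
path `c` in a stable leaf and a path `d` in an unstable leaf are homotopic with fixed end points, then
`c 0 = c 1`. -/
def AtMostOneIntersection {M : Type*} [TopologicalSpace M] (f : M ≃ₜ M) : Prop :=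
  ∀ c d : C(unitInterval, M), StablePath f c → StablePath f.symm d → c.HomotopicRel d {0, 1} →
    c 0 = c 1

theorem homLen_iff {M : Type*} [TopologicalSpace M] {𝒱 : Set (M × M)} {n : ℕ} {x y : M}
    (p : Path x y) : HomLen 𝒱 n p ↔ Pool.Agent.T6.H46.DL.HomLen 𝒱 n p := by
  constructor
  · intro h
    induction h with
    | refl x => exact .refl x
    | trans p q h1 _ ih => exact .trans p q h1 ih
    | homotopic p q h1 _ ih => exact .homotopic p q h1 ih
  · intro h
    induction h with
    | refl x => exact .refl x
    | trans p q h1 _ ih => exact .trans p q h1 ih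
    | homotopic p q h1 _ ih => exact .homotopic p q h1 ih

theorem hlen_eq {M : Type*} [TopologicalSpace M] (𝒱 : Set (M × M)) (c : C(unitInterval, M)) :
    hlen 𝒱 c = Pool.Agent.T6.H46.DL.hl 𝒱 c := by
  unfold hlen Pool.Agent.T6.H46.DL.hl Pool.Agent.T6.H46.DL.len
  congr 1
  ext n
  exact homLen_iff _

/-- **Anosov diffeomorphisms that are hyperbolic at large scale: universal covers.**
Let `f` be a `C¹` Anosov diffeomorphism of a closed connected manifold `M` modelled on the
finite-dimensional space `E`, with splitting `TM = Es ⊕ Eu` of any ranks.  Suppose that at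
arbitrarily small scales `𝒱` one of the following holds.

* (A) The displacements of the unstable leaves in the universal cover grow faster than those of the
  stable leaves (`Dominated`), and the lifts of the stable leaves, or those of the unstable leaves,
  are uniformly properly embedded.
* (B) `f` acts hyperbolically on the fundamental group of `M` (`HyperbolicOnPi1`), and
  * different points of the same stable leaf in the universal cover have orbits at unbounded
    distance, or the same holds for the unstable leaves, or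
  * every lift of every iterate of `f` to the universal cover has at most one fixed point, and
    either the periodic points of `f` are dense, or a stable leaf and an unstable leaf in the
    universal cover have at most one common point.

Nothing else is assumed on the fundamental group of `M` or on the derivative of `f`.
Then there is a surjective covering map `E → M`, where `E ≅ ℝⁿ`, `n = dim M`. -/
theorem result (E : Type*) [NormedAddCommGroup E] [NormedSpace ℝ E] [FiniteDimensional ℝ E]
    (M : Type*) [TopologicalSpace M] [T2Space M] [CompactSpace M] [ConnectedSpace M]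
    [ChartedSpace E M] [IsManifold 𝓘(ℝ, E) ∞ M] (f : Diffeomorph 𝓘(ℝ, E) 𝓘(ℝ, E) M M 1)
    (Es Eu : ∀ x : M, Submodule ℝ (TangentSpace 𝓘(ℝ, E) x)) (hA : IsAnosov f Es Eu)
    (h : ∀ 𝒲 ∈ 𝓝ˢ (diagonal M), ∃ 𝒱 ∈ 𝓝ˢ (diagonal M), 𝒱 ⊆ 𝒲 ∧
      ((Dominated f.toHomeomorph 𝒱 ∧
          (ProperlyEmbedded f.toHomeomorph 𝒱 ∨ ProperlyEmbedded f.toHomeomorph.symm 𝒱)) ∨
        (HyperbolicOnPi1 f.toHomeomorph 𝒱 ∧
          (LeafwiseUnbounded f.toHomeomorph 𝒱 ∨ LeafwiseUnbounded f.toHomeomorph.symm 𝒱 ∨
            (UniqueLiftedFixedPoints f.toHomeomorph ∧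
              (AtMostOneIntersection f.toHomeomorph ∨ Dense {x | ∃ m, 1 ≤ m ∧ f^[m] x = x})))))) :
    ∃ π : E → M, IsCoveringMap π ∧ Function.Surjective π := by
  refine Pool.Agent.T6.H46.DL.man_main f Es Eu hA fun 𝒲 h𝒲 => ?_
  obtain ⟨𝒱, h1, h2, h3⟩ := h 𝒲 h𝒲
  refine ⟨𝒱, h1, h2, ?_⟩
  simp only [Dominated, ProperlyEmbedded, HyperbolicOnPi1, LeafwiseUnbounded, hlen_eq] at h3
  exact h3

end Pool.Agent.Results.MP_0a0487_an.LargeScaleHyperbolic
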