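import Pool.Agent.T6.H66.QR.Man

/-!
# MP_0a0487_an: Anosov diffeomorphisms with quasi-round unstable balls: universal covers
-/

set_option autoImplicit false

open scoped Manifold ContDiff Topology
open Set Filter

namespace Pool.Agent.Results.MP_0a0487_an.QuasiRoundBalls

open Pool.Agent.H721R2 Pool.Agent.H789R2.AN

/-- `x` and `y` are joined by `n` consecutive `R`-steps. -/
def Joined {M : Type*} (R : M → M → Prop) (n : ℕ) (x y : M) : Prop :=
  ∃ c : ℕ → M, c 0 = x ∧ c n = y ∧ ∀ i < n, R (c i) (c (i + 1))

/-- `(x, y)` is a stable step of `f` of size `𝒰`: the points `fⁱ x` and `fⁱ y` are `𝒰`-close for all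
`i ≥ 0`.  (If `f` is Anosov and `𝒰` is a small neighbourhood of the diagonal, then `y` lies in the
local stable manifold of `x`.  The stable steps of `f.symm` are the unstable steps of `f`.) -/
def Step {M : Type*} (f : M → M) (𝒰 : Set (M × M)) (x y : M) : Prop :=
  ∀ i : ℕ, (f^[i] x, f^[i] y) ∈ 𝒰

/-- The iterates of `f` are subexponentially quasi-round on the unstable balls of size `𝒰`: for each
smaller scale `𝒲` and each `ε > 0` there are infinitely many times `l`, and `H ≤ exp (ε l)`, such that

  if `(x, y)` and `(x, z)` are unstable steps of size `𝒰` and `(x, y)` is not an unstable step of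
  size `𝒲`, then the number of steps from `fˡ x` to `fˡ z` is at most `H` times that from `fˡ x` to
  `fˡ y`

(so `fˡ` maps the ball of the unstable steps at `x` onto a set whose eccentricity, seen from
`fˡ x` and measured in numbers of steps, is at most `H`). -/
def QuasiRoundAt {M : Type*} [TopologicalSpace M] (f : M ≃ₜ M) (𝒰 : Set (M × M)) : Prop :=
  ∀ 𝒲 ∈ 𝓝ˢ (diagonal M), ∀ ε > 0, ∃ᶠ l in atTop, ∃ H : ℕ, (H : ℝ) ≤ Real.exp (ε * (l : ℕ)) ∧
    ∀ x y z n, Step f.symm 𝒰 x y → Step f.symm 𝒰 x z → ¬ Step f.symm 𝒲 x y →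
      Joined (Step f.symm 𝒰) n (f^[l] x) (f^[l] y) →
      Joined (Step f.symm 𝒰) (H * n) (f^[l] x) (f^[l] z)

/-- `QuasiRoundAt` holds at arbitrarily small scales. -/
def QuasiRound {M : Type*} [TopologicalSpace M] (f : M ≃ₜ M) : Prop :=
  ∀ 𝒱 ∈ 𝓝ˢ (diagonal M), ∃ 𝒰 ∈ 𝓝ˢ (diagonal M), 𝒰 ⊆ 𝒱 ∧ QuasiRoundAt f 𝒰

/-- **Anosov diffeomorphisms with quasi-round unstable balls: universal covers.**
Let `f` be a `C¹` Anosov diffeomorphism of a closed connected manifold `M` modelled on the
finite-dimensional space `E`, with splitting `TM = Es ⊕ Eu` of any ranks.  Suppose that the iterates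
of `f` map the small unstable balls onto quasi-round sets, with constants that may grow
subexponentially (`QuasiRound f`), or that this holds for `f⁻¹` (the stable balls).  The rates of
expansion may differ from point to point, nothing is assumed on the other foliation, on recurrence
or on the derivative of `f`, and the condition is invariant under topological conjugacy.

Then there is a surjective covering map `E → M`, where `E ≅ ℝⁿ`, `n = dim M`. -/
theorem result (E : Type*) [NormedAddCommGroup E] [NormedSpace ℝ E] [FiniteDimensional ℝ E]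
    (M : Type*) [TopologicalSpace M] [T2Space M] [CompactSpace M] [ConnectedSpace M]
    [ChartedSpace E M] [IsManifold 𝓘(ℝ, E) ∞ M] (f : Diffeomorph 𝓘(ℝ, E) 𝓘(ℝ, E) M M 1)
    (Es Eu : ∀ x : M, Submodule ℝ (TangentSpace 𝓘(ℝ, E) x)) (hA : IsAnosov f Es Eu)
    (h : QuasiRound f.toHomeomorph ∨ QuasiRound f.toHomeomorph.symm) :
    ∃ π : E → M, IsCoveringMap π ∧ Function.Surjective π :=
  Pool.Agent.T6.H66.QR.man_round f Es Eu hA h

end Pool.Agent.Results.MP_0a0487_an.QuasiRoundBalls
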