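import Pool.Agent.T6.H66.TP.Man

/-!
# MP_0a0487_an: Anosov diffeomorphisms with a transversely polynomial foliation: universal covers
-/

set_option autoImplicit false

open scoped Manifold ContDiff Topology
open Set Filter

namespace Pool.Agent.Results.MP_0a0487_an.TransverselyPolynomial

open Pool.Agent.H721R2 Pool.Agent.H789R2.AN

/-- `(x, y)` is a stable step of `f` of size `𝒰`: the points `fⁱ x` and `fⁱ y` are `𝒰`-close for all
`i ≥ 0`.  (If `f` is Anosov and `𝒰` is a small neighbourhood of the diagonal, then `y` lies in the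
local stable manifold of `x`.  The stable steps of `f.symm` are the unstable steps of `f`.) -/
def Step {M : Type*} (f : M → M) (𝒰 : Set (M × M)) (x y : M) : Prop :=
  ∀ i : ℕ, (f^[i] x, f^[i] y) ∈ 𝒰

/-- A map `ℝᵈ → ℝᵈ` given by polynomials of degree at most `D`. -/
def PolyMap (d D : ℕ) (P : (Fin d → ℝ) → Fin d → ℝ) : Prop :=
  ∃ Q : Fin d → MvPolynomial (Fin d) ℝ, (∀ c, (Q c).totalDegree ≤ D) ∧
    ∀ v c, P v c = MvPolynomial.eval v (Q c)

/-- `𝒜` is an `f`-invariant transverse polynomial structure of degree at most `D` for the stable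
foliation of `f`.  It consists of pairs `a = (U, p)`, where `U ⊆ M` is open and `p : U → ℝᵈ` is
continuous and open, such that

* the sets `U` cover `M`;
* the fibres of `p` are locally the stable leaves: near each point of `U`, `p` is constant on small
  stable steps and injective on small unstable steps;
* the transition maps are polynomial, also those along the iterates of `f`: if `x ∈ U`,
  `f ^ k x ∈ U'`, `k ∈ ℤ`, then `p' ∘ f ^ k = P ∘ p` near `x` for a map `P : ℝᵈ → ℝᵈ` given by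
  polynomials of degree at most `D`.

(Remark, not formalised: the stable and the unstable foliations of the hyperbolic automorphisms of
tori, nilmanifolds and infranilmanifolds have such structures.) -/
structure TransversePoly {M : Type*} [TopologicalSpace M] (f : M ≃ₜ M) (d D : ℕ)
    (𝒜 : Set (Set M × (M → Fin d → ℝ))) : Prop where
  cover : ∀ x, ∃ a ∈ 𝒜, x ∈ a.1
  isOpen_source : ∀ a ∈ 𝒜, IsOpen a.1
  continuousAt : ∀ a ∈ 𝒜, ∀ x ∈ a.1, ContinuousAt a.2 x
  open_map : ∀ a ∈ 𝒜, ∀ x ∈ a.1, ∀ N ∈ 𝓝 x, a.2 '' N ∈ 𝓝 (a.2 x)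
  fibres : ∀ a ∈ 𝒜, ∀ x ∈ a.1, ∃ N ∈ 𝓝 x, ∃ 𝒰 ∈ 𝓝ˢ (diagonal M), ∀ y ∈ N, ∀ z ∈ N,
    (Step f 𝒰 y z → a.2 y = a.2 z) ∧ (Step f.symm 𝒰 y z → a.2 y = a.2 z → y = z)
  forward : ∀ a ∈ 𝒜, ∀ b ∈ 𝒜, ∀ x ∈ a.1, ∀ k : ℕ, f^[k] x ∈ b.1 →
    ∃ P, PolyMap d D P ∧ ∀ᶠ y in 𝓝 x, b.2 (f^[k] y) = P (a.2 y)
  backward : ∀ a ∈ 𝒜, ∀ b ∈ 𝒜, ∀ x ∈ a.1, ∀ k : ℕ, f.symm^[k] x ∈ b.1 →
    ∃ P, PolyMap d D P ∧ ∀ᶠ y in 𝓝 x, b.2 (f.symm^[k] y) = P (a.2 y)

/-- **Anosov diffeomorphisms with a transversely polynomial foliation: universal covers.**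
Let `f` be a `C¹` Anosov diffeomorphism of a closed connected manifold `M` modelled on the
finite-dimensional space `E`.  Suppose that the stable foliation of `f`, or the unstable one, has an
`f`-invariant transverse polynomial structure of some bounded degree (`TransversePoly`; degree `1`
means transversely affine).  Nothing is assumed on the other foliation.

Then there is a surjective covering map `E → M`, where `E ≅ ℝⁿ`, `n = dim M`. -/
theorem result (E : Type*) [NormedAddCommGroup E] [NormedSpace ℝ E] [FiniteDimensional ℝ E]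
    (M : Type*) [TopologicalSpace M] [T2Space M] [CompactSpace M] [ConnectedSpace M]
    [ChartedSpace E M] [IsManifold 𝓘(ℝ, E) ∞ M] (f : Diffeomorph 𝓘(ℝ, E) 𝓘(ℝ, E) M M 1)
    (Es Eu : ∀ x : M, Submodule ℝ (TangentSpace 𝓘(ℝ, E) x)) (hA : IsAnosov f Es Eu)
    (d D : ℕ) (𝒜 : Set (Set M × (M → Fin d → ℝ)))
    (h : TransversePoly f.toHomeomorph d D 𝒜 ∨ TransversePoly f.toHomeomorph.symm d D 𝒜) :
    ∃ π : E → M, IsCoveringMap π ∧ Function.Surjective π :=
  Pool.Agent.T6.H66.TP.man_trans_poly f Es Eu hA d D 𝒜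
    (h.imp (fun h => ⟨h.1, h.2, h.3, h.4, h.5, h.6, h.7⟩)
      (fun h => ⟨h.1, h.2, h.3, h.4, h.5, h.6, h.7⟩))

end Pool.Agent.Results.MP_0a0487_an.TransverselyPolynomial
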